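import Pool.Agent.Helper42.QC.Defs

/-!
# The valuation of the division algebra
-/

set_option autoImplicit false

namespace Pool.Agent.Helper42.QC

section val

variable {K D : Type} [Field K] [DivisionRing D]

/-- integral elements -/
def valI (c : CD K D) (y : D) : Prop := ∀ i, c.co y i ∈ c.A

theorem val_sig_mem (c : CD K D) {x : K} (h : c.sig x ∈ c.A) : x ∈ c.A := by
  have h1 : ∀ n, c.sig^[n + 1] x ∈ c.A := by
    intro n
    induction n with
    | zero => simpa using h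
    | succ n ih =>
      rw [Function.iterate_succ_apply']
      exact c.sigA _ ih
  have h2 := h1 (c.d - 1)
  have hd := c.d2
  have h3 : c.d - 1 + 1 = c.d := by omega
  rw [h3, c.sigd] at h2
  exact h2

theorem val_sig_mem_iff (c : CD K D) {x : K} : c.sig x ∈ c.A ↔ x ∈ c.A :=
  ⟨val_sig_mem c, c.sigA x⟩

theorem val_T_ne (c : CD K D) : c.T ≠ 0 := by
  intro h
  have h1 := c.Tpow
  have hd := c.d2
  rw [h, zero_pow (by omega)] at h1
  have h2 : c.emb c.pi = c.emb 0 := by rw [map_zero]; exact h1.symm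
  exact c.pine (c.emb.injective h2)

theorem val_co_zero' (h1 : ST_CO1) (c : CD K D) (i : ℕ) : c.co 0 i = 0 := by
  obtain ⟨-, h, -⟩ := h1 K D c
  have h2 := h 0 0 i
  rw [sub_zero] at h2
  rw [h2]
  ring

theorem val_co_conj (h1 : ST_CO1) (c : CD K D) (z : D) (i : ℕ) :
    c.co (c.T * z * c.T⁻¹) i = c.sig (c.co z i) := by
  obtain ⟨-, -, -, -, -, h6, h7, h8, h9⟩ := h1 K D c
  have hd := c.d2
  have hw : c.T * z * c.T⁻¹ * c.T = c.T * z := by
    rw [mul_assoc, inv_mul_cancel₀ (val_T_ne c), mul_one]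
  rcases Nat.lt_or_ge (i + 1) c.d with hi | hi
  · rw [← h6 _ i hi, hw, h8 _ i hi]
  · rcases Nat.lt_or_ge i c.d with hi2 | hi2
    · have hi3 : i = c.d - 1 := by omega
      have h10 := h7 (c.T * z * c.T⁻¹)
      rw [hw, h9] at h10
      rw [hi3]
      exact (mul_right_cancel₀ c.pine h10).symm
    · rw [c.co_zero _ _ hi2, c.co_zero _ _ hi2, map_zero]

theorem val_I_conj (h1 : ST_CO1) (c : CD K D) (z : D) :
    valI c (c.T * z * c.T⁻¹) ↔ valI c z := by
  unfold valI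
  refine forall_congr' fun i => ?_
  rw [val_co_conj h1, val_sig_mem_iff]

theorem val_I_conj_zpow (h1 : ST_CO1) (c : CD K D) (n : ℤ) (z : D) :
    valI c (c.T ^ n * z * c.T ^ (-n)) ↔ valI c z := by
  have hT := val_T_ne c
  have key : ∀ n : ℤ, c.T * (c.T ^ n * z * c.T ^ (-n)) * c.T⁻¹ =
      c.T ^ (n + 1) * z * c.T ^ (-(n + 1)) := by
    intro n
    have e1 : c.T ^ (n + 1) = c.T * c.T ^ n := by
      rw [add_comm, zpow_add₀ hT, zpow_one]
    have e2 : c.T ^ (-(n + 1)) = c.T ^ (-n) * c.T⁻¹ := by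
      rw [neg_add, zpow_add₀ hT, zpow_neg_one]
    rw [e1, e2]
    simp only [mul_assoc]
  induction n using Int.induction_on with
  | zero => simp
  | succ n ih => rw [← key, val_I_conj h1]; exact ih
  | pred n ih =>
    have h2 := key (-(n : ℤ) - 1)
    rw [sub_add_cancel] at h2
    rw [← val_I_conj h1, h2]
    exact ih

theorem val_I_T (h1 : ST_CO1) (c : CD K D) (z : D) (hz : valI c z) : valI c (c.T * z) := by
  obtain ⟨-, -, -, -, -, h6, h7, h8, h9⟩ := h1 K D c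
  intro i
  rcases Nat.lt_or_ge i c.d with hi | hi
  · cases i with
    | zero => rw [h9]; exact c.A.mul_mem (c.sigA _ (hz _)) c.piA
    | succ i => rw [h8 _ i hi]; exact c.sigA _ (hz _)
  · rw [c.co_zero _ _ hi]; exact c.A.zero_mem

theorem val_I_inv (h1 : ST_CO1) (c : CD K D) (z : D) (hz : valI c z) :
    valI c (c.T⁻¹ * z) ↔ c.co z 0 / c.pi ∈ c.A := by
  obtain ⟨-, -, -, -, -, h6, h7, h8, h9⟩ := h1 K D c
  have hd := c.d2
  have hw : c.T * (c.T⁻¹ * z) = z := by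
    rw [← mul_assoc, mul_inv_cancel₀ (val_T_ne c), one_mul]
  have h0 : c.co z 0 / c.pi = c.sig (c.co (c.T⁻¹ * z) (c.d - 1)) := by
    have h10 := h9 (c.T⁻¹ * z)
    rw [hw] at h10
    rw [h10, mul_div_cancel_right₀ _ c.pine]
  constructor
  · intro h
    rw [h0]
    exact c.sigA _ (h _)
  · intro h i
    rcases Nat.lt_or_ge (i + 1) c.d with hi | hi
    · have h10 := h8 (c.T⁻¹ * z) i hi
      rw [hw] at h10
      refine val_sig_mem c ?_
      rw [← h10]
      exact hz _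
    · rcases Nat.lt_or_ge i c.d with hi2 | hi2
      · have hi3 : i = c.d - 1 := by omega
        rw [hi3]
        refine val_sig_mem c ?_
        rw [← h0]
        exact h
      · rw [c.co_zero _ _ hi2]; exact c.A.zero_mem

theorem val_zpow_mem (c : CD K D) {n : ℤ} (hn : 0 ≤ n) : c.pi ^ n ∈ c.A := by
  obtain ⟨m, rfl⟩ := Int.eq_ofNat_of_zero_le hn
  rw [zpow_natCast]
  exact c.A.pow_mem c.piA m

theorem val_zpow_nonneg (c : CD K D) {n : ℤ} (hn : c.pi ^ n ∈ c.A) : 0 ≤ n := by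
  by_contra h
  push Not at h
  have h2 : c.pi ^ (-n - 1) ∈ c.A := val_zpow_mem c (by omega)
  have h3 := c.A.mul_mem hn h2
  rw [← zpow_add₀ c.pine] at h3
  have h4 : n + (-n - 1) = -1 := by ring
  rw [h4, zpow_neg_one] at h3
  exact c.pinv h3

theorem val_unit (c : CD K D) {a : K} (ha : a ∈ c.A) (hb : a / c.pi ∉ c.A) : a ≠ 0 ∧ a⁻¹ ∈ c.A := by
  have h0 : a ≠ 0 := by
    intro h
    rw [h, zero_div] at hb
    exact hb c.A.zero_mem
  refine ⟨h0, ?_⟩
  obtain ⟨n, u, hu, hu', e⟩ := c.unif a h0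
  have hu0 : u ≠ 0 := by
    rintro rfl
    rw [zero_mul] at e
    exact h0 e
  have h1 : 0 ≤ n := by
    refine val_zpow_nonneg c ?_
    have h2 := c.A.mul_mem hu' ha
    rw [e, ← mul_assoc, inv_mul_cancel₀ hu0, one_mul] at h2
    exact h2
  have h2 : n ≤ 0 := by
    by_contra h
    push Not at h
    refine hb ?_
    have h3 : a / c.pi = u * c.pi ^ (n - 1) := by
      rw [e, zpow_sub_one₀ c.pine, div_eq_mul_inv, mul_assoc]
    rw [h3]
    exact c.A.mul_mem hu (val_zpow_mem c (by omega))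
  have h3 : n = 0 := le_antisymm h2 h1
  rw [h3, zpow_zero, mul_one] at e
  rw [e]
  exact hu'

theorem val_mul (h1 : ST_CO1) (h2 : ST_CO2) (c : CD K D) (y z : D) (hy : valI c y)
    (hz : valI c z) (hy' : ¬ valI c (c.T⁻¹ * y)) (hz' : ¬ valI c (c.T⁻¹ * z)) :
    valI c (y * z) ∧ ¬ valI c (c.T⁻¹ * (y * z)) := by
  obtain ⟨h3, h4⟩ := h2 K D c y z hy hz
  refine ⟨h3, ?_⟩
  rw [val_I_inv h1 c _ h3]
  rw [val_I_inv h1 c _ hy] at hy'
  rw [val_I_inv h1 c _ hz] at hz'
  intro h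
  obtain ⟨ya, yb⟩ := val_unit c (hy 0) hy'
  obtain ⟨za, zb⟩ := val_unit c (hz 0) hz'
  have h5 : (c.co y 0 * c.co z 0) / c.pi ∈ c.A := by
    have h6 := c.A.sub_mem h h4
    rw [← sub_div, sub_sub_cancel] at h6
    exact h6
  have h6 := c.A.mul_mem (c.A.mul_mem yb zb) h5
  have h7 : (c.co y 0)⁻¹ * (c.co z 0)⁻¹ * (c.co y 0 * c.co z 0 / c.pi) = c.pi⁻¹ := by
    field_simp
  rw [h7] at h6
  exact c.pinv h6

theorem val_T_zpow (c : CD K D) (m : ℤ) : c.T ^ ((c.d : ℤ) * m) = c.emb (c.pi ^ m) := by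
  rw [zpow_mul, zpow_natCast, c.Tpow, map_zpow₀]

theorem val_exists_pow (c : CD K D) (x : K) : ∃ N : ℕ, ∀ M : ℕ, N ≤ M → c.pi ^ (M : ℤ) * x ∈ c.A := by
  by_cases h0 : x = 0
  · refine ⟨0, fun M _ => ?_⟩
    rw [h0, mul_zero]
    exact c.A.zero_mem
  · obtain ⟨n, u, hu, -, e⟩ := c.unif x h0
    refine ⟨n.natAbs, fun M hM => ?_⟩
    have h1 : c.pi ^ (M : ℤ) * x = u * c.pi ^ ((M : ℤ) + n) := by
      rw [e, zpow_add₀ c.pine]
      ring
    rw [h1]
    exact c.A.mul_mem hu (val_zpow_mem c (by omega))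

theorem val_lower (h1 : ST_CO1) (c : CD K D) (y : D) : ∃ n : ℤ, valI c (c.T ^ (-n) * y) := by
  obtain ⟨-, -, h3, -⟩ := h1 K D c
  choose f hf using fun i => val_exists_pow c (c.co y i)
  refine ⟨-((c.d : ℤ) * ((∑ i ∈ Finset.range c.d, f i : ℕ) : ℤ)), fun i => ?_⟩
  rw [neg_neg, val_T_zpow, h3]
  rcases Nat.lt_or_ge i c.d with hi | hi
  · exact hf i _ (Finset.single_le_sum (f := f) (fun _ _ => Nat.zero_le _) (Finset.mem_range.2 hi))
  · rw [c.co_zero _ _ hi, mul_zero]; exact c.A.zero_mem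

theorem val_anti (h1 : ST_CO1) (c : CD K D) (y : D) (m n : ℤ) (hmn : m ≤ n)
    (h : valI c (c.T ^ (-n) * y)) : valI c (c.T ^ (-m) * y) := by
  obtain ⟨k, rfl⟩ := Int.le.dest hmn
  clear hmn
  induction k with
  | zero => simpa using h
  | succ k ih =>
    refine ih ?_
    have e : c.T ^ (-(m + (k : ℤ))) * y = c.T * (c.T ^ (-(m + ((k + 1 : ℕ) : ℤ))) * y) := by
      rw [← mul_assoc]
      congr 1
      have e1 : -(m + (k : ℤ)) = 1 + -(m + ((k + 1 : ℕ) : ℤ)) := by push_cast; ring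
      rw [e1, zpow_add₀ (val_T_ne c), zpow_one]
    rw [e]
    exact val_I_T h1 c _ h

theorem val_upper (h1 : ST_CO1) (c : CD K D) (y : D) (hy : y ≠ 0) :
    ∃ b : ℤ, ∀ n : ℤ, valI c (c.T ^ (-n) * y) → n ≤ b := by
  have h3' := (h1 K D c).2.2.1
  have hd := c.d2
  obtain ⟨i, hi⟩ : ∃ i, c.co y i ≠ 0 := by
    by_contra h
    push Not at h
    refine hy ?_
    rw [c.co_spec y]
    refine Finset.sum_eq_zero fun i _ => ?_
    rw [h i, map_zero, zero_mul]
  obtain ⟨n, u, hu, hu', e⟩ := c.unif _ hi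
  have hu0 : u ≠ 0 := by
    rintro rfl
    rw [zero_mul] at e
    exact hi e
  refine ⟨(c.d : ℤ) * (n + 1), fun k hk => ?_⟩
  by_contra hc
  push Not at hc
  have h4 := val_anti h1 c y _ _ hc.le hk i
  have e2 : -((c.d : ℤ) * (n + 1)) = (c.d : ℤ) * (-(n + 1)) := by ring
  rw [e2, val_T_zpow, h3', e] at h4
  have h5 := c.A.mul_mem hu' h4
  have e3 : u⁻¹ * (c.pi ^ (-(n + 1)) * (u * c.pi ^ n)) = c.pi ^ (-(n + 1) + n) := by
    rw [zpow_add₀ c.pine]
    field_simp
  rw [e3] at h5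
  have h6 := val_zpow_nonneg c h5
  omega

end val

theorem st_VAL (h1 : ST_CO1) (h2 : ST_CO2) : ST_VAL := by
  intro K D _ _ c
  have hT := val_T_ne c
  have key : ∀ y : D, ∃ n : ℤ, y ≠ 0 → ∀ m : ℤ, valI c (c.T ^ (-m) * y) ↔ m ≤ n := by
    intro y
    by_cases hy : y = 0
    · exact ⟨0, fun h => absurd hy h⟩
    · obtain ⟨n, hn1, hn2⟩ := Int.exists_greatest_of_bdd (val_upper h1 c y hy) (val_lower h1 c y)
      exact ⟨n, fun _ m => ⟨fun h => hn2 m h, fun h => val_anti h1 c y m n h hn1⟩⟩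
  choose v hv using key
  refine ⟨v, ?_, ?_, ?_, ?_⟩
  · intro x y hx hy
    have hx1 : valI c (c.T ^ (-v x) * x) := (hv x hx _).2 le_rfl
    have hy1 : valI c (c.T ^ (-v y) * y) := (hv y hy _).2 le_rfl
    have hx2 : ¬ valI c (c.T⁻¹ * (c.T ^ (-v x) * x)) := by
      have e : c.T⁻¹ * (c.T ^ (-v x) * x) = c.T ^ (-(v x + 1)) * x := by
        rw [← mul_assoc]
        congr 1
        have e1 : -(v x + 1) = -1 + -v x := by ring
        rw [e1, zpow_add₀ hT, zpow_neg_one]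
      rw [e, hv x hx]
      omega
    have hy2 : ¬ valI c (c.T⁻¹ * (c.T ^ (-v y) * y)) := by
      have e : c.T⁻¹ * (c.T ^ (-v y) * y) = c.T ^ (-(v y + 1)) * y := by
        rw [← mul_assoc]
        congr 1
        have e1 : -(v y + 1) = -1 + -v y := by ring
        rw [e1, zpow_add₀ hT, zpow_neg_one]
      rw [e, hv y hy]
      omega
    set x0 := c.T ^ (-v x) * x with hx0
    set y0 := c.T ^ (-v y) * y with hy0
    have hx3 : valI c (c.T ^ (-v y) * x0 * c.T ^ (-(-v y))) := (val_I_conj_zpow h1 c _ _).2 hx1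
    have hx4 : ¬ valI c (c.T⁻¹ * (c.T ^ (-v y) * x0 * c.T ^ (-(-v y)))) := by
      have e : c.T⁻¹ * (c.T ^ (-v y) * x0 * c.T ^ (-(-v y))) =
          c.T ^ (-v y) * (c.T⁻¹ * x0) * c.T ^ (-(-v y)) := by
        have e1 : c.T⁻¹ * c.T ^ (-v y) = c.T ^ (-v y) * c.T⁻¹ := by
          rw [← zpow_neg_one, ← zpow_add₀ hT, ← zpow_add₀ hT, add_comm]
        rw [← mul_assoc, ← mul_assoc, e1]
        simp only [mul_assoc]
      rw [e, val_I_conj_zpow h1 c]
      exact hx2
    obtain ⟨h3, h4⟩ := val_mul h1 h2 c _ _ hx3 hy1 hx4 hy2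
    have e5 : c.T ^ (-v y) * x0 * c.T ^ (-(-v y)) * y0 = c.T ^ (-(v x + v y)) * (x * y) := by
      have e6 : c.T ^ (-(-v y)) * y0 = y := by
        rw [hy0, ← mul_assoc, ← zpow_add₀ hT, neg_add_cancel, zpow_zero, one_mul]
      rw [mul_assoc, e6, hx0, ← mul_assoc, ← zpow_add₀ hT, mul_assoc]
      congr 2
      ring
    rw [e5] at h3 h4
    have hxy : x * y ≠ 0 := mul_ne_zero hx hy
    have h5 := (hv (x * y) hxy _).1 h3
    have e7 : c.T⁻¹ * (c.T ^ (-(v x + v y)) * (x * y)) = c.T ^ (-(v x + v y + 1)) * (x * y) := by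
      rw [← mul_assoc]
      congr 1
      have e1 : -(v x + v y + 1) = -1 + -(v x + v y) := by ring
      rw [e1, zpow_add₀ hT, zpow_neg_one]
    rw [e7, hv (x * y) hxy] at h4
    omega
  · intro x y hx hy hxy
    rw [← hv (x + y) hxy]
    have h3 := (hv x hx _).2 (min_le_left (v x) (v y))
    have h4 := (hv y hy _).2 (min_le_right (v x) (v y))
    intro i
    rw [mul_add, (h1 K D c).1]
    exact c.A.add_mem (h3 i) (h4 i)
  · have h5 := (h1 K D c).2.2.2.2.1
    have hd := c.d2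
    have hone : ∀ i, c.co 1 i = if i = 0 then 1 else 0 := by
      intro i
      have h6 := h5 1 0 i (by omega)
      rw [map_one, pow_zero, mul_one] at h6
      exact h6
    have hI1 : valI c 1 := by
      intro i
      rw [hone]
      split_ifs
      · exact c.A.one_mem
      · exact c.A.zero_mem
    have h6 : (1 : ℤ) ≤ v c.T := by
      rw [← hv c.T hT]
      have e : c.T ^ (-(1 : ℤ)) * c.T = 1 := by
        rw [zpow_neg_one, inv_mul_cancel₀ hT]
      rw [e]
      exact hI1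
    have h7 : ¬ ((2 : ℤ) ≤ v c.T) := by
      rw [← hv c.T hT]
      have e : c.T ^ (-(2 : ℤ)) * c.T = c.T⁻¹ * 1 := by
        have e1 : (-(2 : ℤ)) = -1 + -1 := by norm_num
        rw [e1, zpow_add₀ hT, zpow_neg_one, mul_assoc, inv_mul_cancel₀ hT]
      rw [e, val_I_inv h1 c _ hI1, hone]
      simp only [if_true, one_div]
      exact c.pinv
    omega
  · intro m y
    by_cases hy : y = 0
    · subst hy
      refine ⟨fun _ i => ?_, fun _ => Or.inl rfl⟩
      rw [mul_zero, val_co_zero' h1]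
      exact c.A.zero_mem
    · have h3 := hv y hy m
      constructor
      · rintro (h | h)
        · exact absurd h hy
        · exact h3.2 h
      · intro h
        exact Or.inr (h3.1 h)

end Pool.Agent.Helper42.QC
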